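import Pool.Agent.helper5.SYM.SpecB

set_option autoImplicit false

namespace Pool.Agent.SYM
open Finset CT Polynomial

theorem GPA_mem_pf {W : Type} [Fintype W] [DecidableEq W] {S : Finset W} {t : W → Fin 3} :
    t ∈ pf S ↔ ∀ w, w ∉ S → t w = 0 := by
  unfold pf
  rw [Fintype.mem_piFinset]
  constructor
  · intro h w hw
    have := h w
    rw [if_neg hw] at this
    simpa using this
  · intro h w
    by_cases hw : w ∈ S
    · simp [hw]
    · simp [hw, h w hw]

theorem GPA_mem_pz {W A : Type} [AddCommGroup A] [Fintype W] [Fintype A] {K : Finset W}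
    {ζ : W → A} : ζ ∈ pz K ↔ (∀ k ∈ K, ζ k ∈ O2 A) ∧ ∀ k, k ∉ K → ζ k = 0 := by
  simp [pz]

theorem GPA_dep {W A : Type} [DecidableEq W] [AddCommGroup A] (L : List W) :
    ∀ (e : W × Fin 4 → W × Fin 4) (α : W × Fin 4 → A) (t t' : W → Fin 3),
      (∀ u ∈ L, t u = t' u) →
      lpsv L e α t = lpsv L e α t' ∧ fe L e t = fe L e t' ∧ fa L e α t = fa L e α t' := by
  induction L with
  | nil => intro e α t t' _; exact ⟨rfl, rfl, rfl⟩
  | cons u L ih =>
    intro e α t t' h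
    have hu : t u = t' u := h u (by simp)
    have ih' := ih (sm e u (t' u)) (smv e α u (t' u)) t t'
      (fun v hv => h v (List.mem_cons_of_mem _ hv))
    simp only [lpsv, fe, fa, hu]
    exact ⟨by rw [ih'.1], ih'.2.1, ih'.2.2⟩

theorem GPA_LK {W A : Type} [AddCommGroup A] [DecidableEq W]
    (C : Finset (W × Fin 4)) (J K Z : Finset W) (γ : W × Fin 4 → A)
    (e : W × Fin 4 → W × Fin 4) (α : W × Fin 4 → A) (t t' : W → Fin 3) (ζ : W → A)
    (h : ∀ j ∈ J, t j = t' j) : LK C J K Z γ e α t ζ = LK C J K Z γ e α t' ζ := by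
  unfold LK
  have : ∀ Φ : W × Fin 4 → A → Bool, LabK C J K Z γ e α t ζ Φ ↔ LabK C J K Z γ e α t' ζ Φ := by
    intro Φ
    unfold LabK
    have h1 : (∀ j ∈ J, VC (γ (j, 0)) (t j) (Φ (j, 0)) (Φ (j, 1))) ↔
        (∀ j ∈ J, VC (γ (j, 0)) (t' j) (Φ (j, 0)) (Φ (j, 1))) := by
      constructor
      · intro h2 j hj; rw [← h j hj]; exact h2 j hj
      · intro h2 j hj; rw [h j hj]; exact h2 j hj
    rw [h1]
  rw [Nat.card_congr (Equiv.subtypeEquivRight this)]

theorem GPA_gav (hLBF : LBF_stmt) (hLBA : LBA_stmt) (hADM : ADM_stmt) (hGPL : GPL_stmt)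
    (V A : Type) [Fintype V] [DecidableEq V] [Nonempty V] [AddCommGroup A] [Fintype A]
    (G : SimpleGraph V) (θ : A → (G ≃g G)) (R J K Z : Finset V) (γ : V → A)
    (κ : V × Fin 4 → G.Dart)
    (e : (V × Fin 3) × Fin 4 → (V × Fin 3) × Fin 4)
    (α : (V × Fin 3) × Fin 4 → A) (C : Finset ((V × Fin 3) × Fin 4))
    (γ' : (V × Fin 3) × Fin 4 → A) (hD : Dat θ R J K γ κ)
    (hQ : Quo (fun d : G.Dart => d.symm) (fun a d => sd (θ a) d) (Yf θ) (XX R J K) κ e α C γ')
    (hZ : Z ⊆ K) (t : V → Fin 3) (ζ : V → A) (τ : G.Dart → G.Dart) (hτ : IsTS τ)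
    (hI : ∀ a, Inv (θ a) τ) (hT : TF θ R J K γ κ t ζ τ) :
    gav τ (fun d => ¬ Yf θ d ∨ d.fst ∈ Z) = lpsv (R.toList.map l0) e α (up t) +
      LK C (J.image l0) (K.image l0) (Z.image l0) (gm γ γ') (fe (R.toList.map l0) e (up t))
        (fa (R.toList.map l0) e α (up t)) (up t) (up ζ) := by
  classical
  have hadm := hADM V A G θ R J K γ κ e α C γ' hD hQ
  have h1 := hLBF G.Dart (fun d : G.Dart => d.symm) τ (fun d => ¬ Yf θ d ∨ d.fst ∈ Z)
  have h2 := hGPL V A G θ R J K Z γ κ e α C γ' t ζ τ hD hQ hZ hτ hI hT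
  have hE : ∀ x ∈ Ed C (J.image l0) (K.image l0), x.1 ∉ R.toList.map l0 := by
    intro x hx
    unfold Ed jd at hx
    rw [mem_union, mem_union, mem_product, mem_product] at hx
    rcases hx with (hx | hx) | hx
    · exact (hadm.dC x hx).1
    · exact hadm.dJ _ hx.1
    · exact hadm.dK _ hx.1
  have h3 := hLBA (V × Fin 3) A (R.toList.map l0) (Ed C (J.image l0) (K.image l0)) e α (up t)
    (fun Φ => (∀ c ∈ C, CapC (gm γ γ' c) (Φ c)) ∧
      (∀ j ∈ J.image l0, VC (gm γ γ' (j, 0)) (up t j) (Φ (j, 0)) (Φ (j, 1))) ∧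
      (∀ k ∈ K.image l0, CapC (up ζ k) (Φ (k, 0))) ∧
      ∀ k ∈ Z.image l0, Φ (k, 0) = fun _ => false)
    hadm.nd hE hadm.act hadm.vol
    (by
      intro Φ Φ' hΦ
      have hJ : ∀ j ∈ J.image l0, ∀ i, Φ (j, i) = Φ' (j, i) := fun j hj i => hΦ _ (hadm.dJ j hj)
      have hK : ∀ j ∈ K.image l0, ∀ i, Φ (j, i) = Φ' (j, i) := fun j hj i => hΦ _ (hadm.dK j hj)
      have hC : ∀ c ∈ C, Φ c = Φ' c := fun c hc => hΦ c (hadm.dC c hc).1
      have hZ' : ∀ j ∈ Z.image l0, ∀ i, Φ (j, i) = Φ' (j, i) :=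
        fun j hj i => hK j (Finset.image_subset_image hZ hj) i
      constructor
      · rintro ⟨a1, a2, a3, a4⟩
        refine ⟨fun c hc => ?_, fun j hj => ?_, fun k hk => ?_, fun k hk => ?_⟩
        · rw [← hC c hc]; exact a1 c hc
        · rw [← hJ j hj 0, ← hJ j hj 1]; exact a2 j hj
        · rw [← hK k hk 0]; exact a3 k hk
        · rw [← hZ' k hk 0]; exact a4 k hk
      · rintro ⟨a1, a2, a3, a4⟩
        refine ⟨fun c hc => ?_, fun j hj => ?_, fun k hk => ?_, fun k hk => ?_⟩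
        · rw [hC c hc]; exact a1 c hc
        · rw [hJ j hj 0, hJ j hj 1]; exact a2 j hj
        · rw [hK k hk 0]; exact a3 k hk
        · rw [hZ' k hk 0]; exact a4 k hk)
  have h4 : Nat.card {Φ : (V × Fin 3) × Fin 4 → A → Bool //
        LabK C (J.image l0) (K.image l0) (Z.image l0) (gm γ γ') e α (up t) (up ζ) Φ ∧
        ∀ u ∈ R.toList.map l0, ∀ i, Φ (u, pa (up t u) i) = Φ (u, i)} =
      2 ^ lpsv (R.toList.map l0) e α (up t) *
        Nat.card {Φ : (V × Fin 3) × Fin 4 → A → Bool //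
          LabK C (J.image l0) (K.image l0) (Z.image l0) (gm γ γ')
            (fe (R.toList.map l0) e (up t)) (fa (R.toList.map l0) e α (up t)) (up t) (up ζ) Φ} := by
    refine (Nat.card_congr (Equiv.subtypeEquivRight fun Φ => ?_)).trans h3
    unfold LabK
    tauto
  have h5 := (h1.symm.trans h2).trans h4
  set N := Nat.card {Φ : (V × Fin 3) × Fin 4 → A → Bool //
          LabK C (J.image l0) (K.image l0) (Z.image l0) (gm γ γ')
            (fe (R.toList.map l0) e (up t)) (fa (R.toList.map l0) e α (up t)) (up t) (up ζ) Φ}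
    with hN
  have h6 : N ∣ 2 ^ nav (fun d : G.Dart => d.symm) τ (fun d => ¬ Yf θ d ∨ d.fst ∈ Z) :=
    ⟨_, h5.trans (Nat.mul_comm _ _)⟩
  obtain ⟨b, -, hb⟩ := (Nat.dvd_prime_pow Nat.prime_two).1 h6
  have h7 : LK C (J.image l0) (K.image l0) (Z.image l0) (gm γ γ')
      (fe (R.toList.map l0) e (up t)) (fa (R.toList.map l0) e α (up t)) (up t) (up ζ) = b := by
    unfold LK
    rw [← hN, hb]
    exact Nat.log_pow (by norm_num) b
  rw [h7]
  rw [hb, ← pow_add] at h5
  exact Nat.pow_right_injective (le_refl 2) h5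

theorem GPA (hLBF : LBF_stmt) (hLBA : LBA_stmt) (hSAS : SAS_stmt) (hFRD : FRD_stmt)
    (hADM : ADM_stmt) (hBIJ : BIJ_stmt) (hGPL : GPL_stmt) : GPA_stmt := by
  classical
  intro V A _ _ _ _ _ G θ R J K Z γ κ τ₀ e α C γ' hD hτ₀ hI₀ hQ hZ k
  obtain ⟨T, hT1, hT2⟩ := hBIJ V A G θ R J K γ κ τ₀ hD hτ₀ hI₀
  have hadm := hADM V A G θ R J K γ κ e α C γ' hD hQ
  have hgav : ∀ t, ∀ ζ ∈ pz K, gav (T t ζ) (fun d => ¬ Yf θ d ∨ d.fst ∈ Z) =
      lpsv (R.toList.map l0) e α (up t) +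
      LK C (J.image l0) (K.image l0) (Z.image l0) (gm γ γ') (fe (R.toList.map l0) e (up t))
        (fa (R.toList.map l0) e α (up t)) (up t) (up ζ) := by
    intro t ζ hζ
    obtain ⟨a1, a2, -, a4⟩ := hT1 t ζ hζ
    exact GPA_gav hLBF hLBA hADM hGPL V A G θ R J K Z γ κ e α C γ' hD hQ hZ t ζ _ a1 a2 a4
  -- the left side
  have hL : Nat.card {τ : G.Dart → G.Dart // IsTS τ ∧ (∀ a, Inv (θ a) τ) ∧
        (∀ d, ¬ Yf θ d → τ d = τ₀ d) ∧ gav τ (fun d => ¬ Yf θ d ∨ d.fst ∈ Z) = k} =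
      ((pf (R ∪ J) ×ˢ pz (A := A) K).filter fun p =>
        gav (T p.1 p.2) (fun d => ¬ Yf θ d ∨ d.fst ∈ Z) = k).card := by
    rw [← Fintype.card_coe, ← Nat.card_eq_fintype_card]
    have hmk : ∀ p : {p // p ∈ (pf (R ∪ J) ×ˢ pz (A := A) K).filter fun p =>
        gav (T p.1 p.2) (fun d => ¬ Yf θ d ∨ d.fst ∈ Z) = k},
        IsTS (T p.1.1 p.1.2) ∧ (∀ a, Inv (θ a) (T p.1.1 p.1.2)) ∧
        (∀ d, ¬ Yf θ d → T p.1.1 p.1.2 d = τ₀ d) ∧
        gav (T p.1.1 p.1.2) (fun d => ¬ Yf θ d ∨ d.fst ∈ Z) = k := by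
      intro p
      have hp := p.2
      rw [mem_filter, mem_product] at hp
      obtain ⟨a1, a2, a3, -⟩ := hT1 p.1.1 p.1.2 hp.1.2
      exact ⟨a1, a2, a3, hp.2⟩
    refine (Nat.card_congr (Equiv.ofBijective (fun p => ⟨T p.1.1 p.1.2, hmk p⟩) ⟨?_, ?_⟩)).symm
    · rintro ⟨p, hp⟩ ⟨p', hp'⟩ h
      rw [mem_filter, mem_product] at hp hp'
      have h' : T p.1 p.2 = T p'.1 p'.2 := congrArg Subtype.val h
      obtain ⟨a1, a2, a3, -⟩ := hT1 p.1 p.2 hp.1.2
      obtain ⟨q, -, hq⟩ := hT2 (T p.1 p.2) a1 a2 a3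
      have e1 := hq p ⟨hp.1.1, hp.1.2, rfl⟩
      have e2 := hq p' ⟨hp'.1.1, hp'.1.2, h'.symm⟩
      exact Subtype.ext (e1.trans e2.symm)
    · rintro ⟨τ, a1, a2, a3, a4⟩
      obtain ⟨q, ⟨q1, q2, q3⟩, -⟩ := hT2 τ a1 a2 a3
      refine ⟨⟨q, ?_⟩, Subtype.ext q3⟩
      rw [mem_filter, mem_product, q3]
      exact ⟨⟨q1, q2⟩, a4⟩
  rw [hL, hSAS (V × Fin 3) A _ (R.toList.map l0) e α hadm.nd]
  have hTo : (R.toList.map l0).toFinset = R.image l0 := by
    ext w
    simp only [List.mem_toFinset, List.mem_map, Finset.mem_toList, Finset.mem_image]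
  rw [hTo]
  have hl0 : Function.Injective (l0 : V → V × Fin 3) := by
    intro a b h
    exact congrArg Prod.fst h
  have hmem : ∀ (S : Finset V) (w : V × Fin 3), w ∈ S.image l0 ↔ w.1 ∈ S ∧ w.2 = 0 := by
    intro S w
    rw [Finset.mem_image]
    constructor
    · rintro ⟨v, hv, rfl⟩; exact ⟨hv, rfl⟩
    · rintro ⟨h1, h2⟩; exact ⟨w.1, h1, Prod.ext rfl h2.symm⟩
  have hR : ((∑ t ∈ pf (R.image l0), (X : (ZMod 2)[X]) ^ lpsv (R.toList.map l0) e α t *
      Om C (J.image l0) (K.image l0) (Z.image l0) (gm γ γ') (fe (R.toList.map l0) e t)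
        (fa (R.toList.map l0) e α t)).coeff k) =
      ∑ q ∈ pf (R.image l0) ×ˢ (pf (J.image l0) ×ˢ pz (A := A) (K.image l0)),
        if lpsv (R.toList.map l0) e α q.1 + LK C (J.image l0) (K.image l0) (Z.image l0) (gm γ γ')
          (fe (R.toList.map l0) e q.1) (fa (R.toList.map l0) e α q.1) q.2.1 q.2.2 = k
        then (1 : ZMod 2) else 0 := by
    rw [Polynomial.finset_sum_coeff, Finset.sum_product]
    refine Finset.sum_congr rfl fun t _ => ?_
    rw [Finset.sum_product]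
    unfold Om
    rw [Finset.mul_sum, Polynomial.finset_sum_coeff]
    refine Finset.sum_congr rfl fun t2 _ => ?_
    rw [Finset.mul_sum, Polynomial.finset_sum_coeff]
    refine Finset.sum_congr rfl fun ζ _ => ?_
    rw [← pow_add, Polynomial.coeff_X_pow]
    simp only [eq_comm (a := k)]
  rw [hR, ← Finset.sum_boole]
  refine Finset.sum_bij'
    (fun p _ => (fun w => if w ∈ R.image l0 then up p.1 w else 0,
      fun w => if w ∈ J.image l0 then up p.1 w else 0, up p.2))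
    (fun q _ => (fun v => if v ∈ R then q.1 (l0 v) else if v ∈ J then q.2.1 (l0 v) else 0,
      fun v => q.2.2 (l0 v))) ?_ ?_ ?_ ?_ ?_
  · rintro ⟨t, ζ⟩ hp
    rw [mem_product] at hp
    rw [mem_product, mem_product]
    refine ⟨GPA_mem_pf.2 fun w hw => if_neg hw, GPA_mem_pf.2 fun w hw => if_neg hw, ?_⟩
    have h1 := GPA_mem_pz.1 hp.2
    rw [GPA_mem_pz]
    constructor
    · intro w hw
      have hw' := (hmem K w).1 hw
      show up ζ w ∈ O2 A
      unfold up
      rw [if_pos hw'.2]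
      exact h1.1 _ hw'.1
    · intro w hw
      show up ζ w = 0
      unfold up
      split_ifs with h2
      · exact h1.2 _ fun h3 => hw ((hmem K w).2 ⟨h3, h2⟩)
      · rfl
  · rintro ⟨t1, t2, ζ⟩ hq
    rw [mem_product, mem_product] at hq
    rw [mem_product]
    constructor
    · rw [GPA_mem_pf]
      intro v hv
      rw [mem_union, not_or] at hv
      show (if v ∈ R then t1 (l0 v) else if v ∈ J then t2 (l0 v) else 0) = 0
      rw [if_neg hv.1, if_neg hv.2]
    · have h1 := GPA_mem_pz.1 hq.2.2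
      rw [GPA_mem_pz]
      constructor
      · intro v hv
        exact h1.1 _ ((hmem K _).2 ⟨hv, rfl⟩)
      · intro v hv
        exact h1.2 _ fun h3 => hv ((hmem K _).1 h3).1
  · rintro ⟨t, ζ⟩ hp
    rw [mem_product] at hp
    have h1 := GPA_mem_pf.1 hp.1
    refine Prod.ext ?_ ?_
    · funext v
      show (if v ∈ R then (if l0 v ∈ R.image l0 then up t (l0 v) else 0) else
        if v ∈ J then (if l0 v ∈ J.image l0 then up t (l0 v) else 0) else 0) = t v
      by_cases hv : v ∈ R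
      · rw [if_pos hv, if_pos ((hmem R _).2 ⟨hv, rfl⟩)]
        rfl
      · rw [if_neg hv]
        by_cases hv' : v ∈ J
        · rw [if_pos hv', if_pos ((hmem J _).2 ⟨hv', rfl⟩)]
          rfl
        · rw [if_neg hv']
          exact (h1 v (by rw [mem_union, not_or]; exact ⟨hv, hv'⟩)).symm
    · rfl
  · rintro ⟨t1, t2, ζ⟩ hq
    rw [mem_product, mem_product] at hq
    have h1 := GPA_mem_pf.1 hq.1
    have h2 := GPA_mem_pf.1 hq.2.1
    have h3 := GPA_mem_pz.1 hq.2.2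
    refine Prod.ext ?_ (Prod.ext ?_ ?_)
    · funext w
      show (if w ∈ R.image l0 then up (fun v => if v ∈ R then t1 (l0 v) else
        if v ∈ J then t2 (l0 v) else 0) w else 0) = t1 w
      by_cases hw : w ∈ R.image l0
      · have hw' := (hmem R w).1 hw
        rw [if_pos hw]
        unfold up
        rw [if_pos hw'.2]
        show (if w.1 ∈ R then t1 (l0 w.1) else if w.1 ∈ J then t2 (l0 w.1) else 0) = t1 w
        rw [if_pos hw'.1]
        exact congrArg t1 (Prod.ext rfl hw'.2.symm)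
      · rw [if_neg hw]
        exact (h1 w hw).symm
    · funext w
      show (if w ∈ J.image l0 then up (fun v => if v ∈ R then t1 (l0 v) else
        if v ∈ J then t2 (l0 v) else 0) w else 0) = t2 w
      by_cases hw : w ∈ J.image l0
      · have hw' := (hmem J w).1 hw
        have hwR : w.1 ∉ R := fun h => Finset.disjoint_left.1 hD.dRJ h hw'.1
        rw [if_pos hw]
        unfold up
        rw [if_pos hw'.2]
        show (if w.1 ∈ R then t1 (l0 w.1) else if w.1 ∈ J then t2 (l0 w.1) else 0) = t2 w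
        rw [if_neg hwR, if_pos hw'.1]
        exact congrArg t2 (Prod.ext rfl hw'.2.symm)
      · rw [if_neg hw]
        exact (h2 w hw).symm
    · funext w
      show up (fun v => ζ (l0 v)) w = ζ w
      unfold up
      split_ifs with h4
      · exact congrArg ζ (Prod.ext rfl h4.symm)
      · exact (h3.2 w fun h5 => h4 ((hmem K w).1 h5).2).symm
  · rintro ⟨t, ζ⟩ hp
    rw [mem_product] at hp
    show (if gav (T t ζ) (fun d => ¬ Yf θ d ∨ d.fst ∈ Z) = k then (1 : ZMod 2) else 0) = _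
    rw [hgav t ζ hp.2]
    have hd := GPA_dep (R.toList.map l0) e α (up t)
      (fun w => if w ∈ R.image l0 then up t w else 0) (fun w hw => by
        have : w ∈ R.image l0 := by rw [← hTo]; exact List.mem_toFinset.2 hw
        exact (if_pos this).symm)
    rw [hd.1, hd.2.1, hd.2.2]
    rw [GPA_LK C (J.image l0) (K.image l0) (Z.image l0) (gm γ γ') _ _ (up t)
      (fun w => if w ∈ J.image l0 then up t w else 0) (up ζ) (fun w hw => (if_pos hw).symm)]

end Pool.Agent.SYM
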