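import Pool.Agent.helper5.SYM.SpecA

set_option autoImplicit false

namespace Pool.Agent.SYM
open Finset CT Polynomial

theorem NLC_sm_act {W : Type} [DecidableEq W] (S : Finset W) (E : Finset (W × Fin 4))
    (e : W × Fin 4 → W × Fin 4) (u : W) (t : Fin 3) (hu : u ∉ S) (hE : ∀ x ∈ E, x.1 ≠ u)
    (h : Act (dts (insert u S) ∪ E) e) : Act (dts S ∪ E) (sm e u t) := by
  have hm : ∀ i : Fin 4, (u, i) ∈ dts (insert u S) ∪ E := by
    intro i; simp [dts]
  have hne : ∀ i j : Fin 4, i ≠ j → (u, i) ≠ (u, j) := by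
    intro i j hij h'; exact hij (congrArg Prod.snd h')
  have p1 : (pr t).1 ≠ (pr t).2.1 := by fin_cases t <;> decide
  have p2 : (pr t).2.2.1 ≠ (pr t).2.2.2 := by fin_cases t <;> decide
  have p3 : (pr t).2.2.1 ≠ (pr t).1 := by fin_cases t <;> decide
  have p4 : (pr t).2.2.1 ≠ (pr t).2.1 := by fin_cases t <;> decide
  have p5 : (pr t).2.2.2 ≠ (pr t).1 := by fin_cases t <;> decide
  have p6 : (pr t).2.2.2 ≠ (pr t).2.1 := by fin_cases t <;> decide
  have a1 := join_act h (hm (pr t).1) (hm (pr t).2.1) (hne _ _ p1)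
  have a2 := join_act a1 (x := (u, (pr t).2.2.1)) (y := (u, (pr t).2.2.2))
    (mem_erase.2 ⟨hne _ _ p4, mem_erase.2 ⟨hne _ _ p3, hm _⟩⟩)
    (mem_erase.2 ⟨hne _ _ p6, mem_erase.2 ⟨hne _ _ p5, hm _⟩⟩) (hne _ _ p2)
  have key : (((((dts (insert u S) ∪ E).erase (u, (pr t).1)).erase (u, (pr t).2.1)).erase
      (u, (pr t).2.2.1)).erase (u, (pr t).2.2.2)) = dts S ∪ E := by
    have hall : ∀ i : Fin 4, i = (pr t).1 ∨ i = (pr t).2.1 ∨ i = (pr t).2.2.1 ∨
        i = (pr t).2.2.2 := by
      intro i; fin_cases t <;> fin_cases i <;> decide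
    ext ⟨w, i⟩
    simp only [mem_erase, mem_union, dts, mem_product, mem_insert, mem_univ, and_true, ne_eq,
      Prod.mk.injEq]
    constructor
    · rintro ⟨h1, h2, h3, h4, h5 | h5⟩
      · rcases h5 with h5 | h5
        · subst h5
          exfalso
          rcases hall i with hi | hi | hi | hi
          · exact h4 ⟨rfl, hi⟩
          · exact h3 ⟨rfl, hi⟩
          · exact h2 ⟨rfl, hi⟩
          · exact h1 ⟨rfl, hi⟩
        · exact Or.inl h5
      · exact Or.inr h5
    · intro h5
      have hw : w ≠ u := by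
        rcases h5 with h5 | h5
        · intro h6; subst h6; exact hu h5
        · exact hE _ h5
      refine ⟨fun h6 => hw h6.1, fun h6 => hw h6.1, fun h6 => hw h6.1, fun h6 => hw h6.1, ?_⟩
      rcases h5 with h5 | h5
      · exact Or.inl (Or.inr h5)
      · exact Or.inr h5
  rw [key] at a2
  exact a2

theorem NLC : NLC_stmt := by
  intro W _ R R' L
  induction L with
  | nil =>
    intro E e _ _ hA hR
    have h0 : dts (([] : List W).toFinset) ∪ E = E := by
      simp [dts]
    rw [h0] at hA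
    exact hR e hA
  | cons u L ih =>
    intro E e hnd hE hA hR
    have hu := (List.nodup_cons.1 hnd).1
    simp only [NL]
    refine Finset.sum_congr rfl fun t _ => ?_
    split_ifs
    · refine ih E (sm e u t) (List.nodup_cons.1 hnd).2
        (fun x hx h' => hE x hx (List.mem_cons_of_mem _ h')) ?_ hR
      refine NLC_sm_act _ _ _ _ _ (by simpa using hu) (fun x hx h' => hE x hx (by simp [h'])) ?_
      rwa [List.toFinset_cons] at hA
    · rfl

end Pool.Agent.SYM
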